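import Pool.Agent.W323.PT.Stm

/-! Part `S_Tri` of the project PT (MP_d085fd_co): the pattern surrounds `c`. -/

set_option autoImplicit false

namespace Pool.Agent.W252.PT

open Pool.Agent.W323.PT

/-- three term Pluecker relation for the cross products seen from `c` -/
theorem plu (c u v w t : Pt) :
    o c u v * o c w t - o c u w * o c v t + o c u t * o c v w = 0 := by
  unfold o
  ring

/-- `o` is antisymmetric -/
theorem anti (c u v : Pt) : o c u v = - o c v u := by
  unfold o
  ring

theorem tri : S_Tri := by
  intro c r1 r2 r3 r4 x y z hF hx hy hz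
  obtain ⟨h12, h13, h14, h23, h24, h34⟩ := hF
  obtain ⟨h1x, hx2⟩ := hx
  obtain ⟨h3y, hy4⟩ := hy
  obtain ⟨hz2, h3z⟩ := hz
  have hx3 : 0 < o c x r3 := by
    have h := plu c r1 x r2 r3
    have h1 : 0 < o c r1 x * o c r2 r3 := mul_pos h1x h23
    have h2 : 0 < o c r1 r3 * o c x r2 := mul_pos h13 hx2
    have h3 : 0 < o c r1 r2 * o c x r3 := by linarith
    exact (pos_iff_pos_of_mul_pos h3).mp h12
  have hx4 : 0 < o c x r4 := by
    have h := plu c r1 x r2 r4
    have h1 : 0 < o c r1 x * o c r2 r4 := mul_pos h1x h24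
    have h2 : 0 < o c r1 r4 * o c x r2 := mul_pos h14 hx2
    have h3 : 0 < o c r1 r2 * o c x r4 := by linarith
    exact (pos_iff_pos_of_mul_pos h3).mp h12
  have hxy : 0 < o c x y := by
    have h := plu c x r3 y r4
    have h1 : 0 < o c x r3 * o c y r4 := mul_pos hx3 hy4
    have h2 : 0 < o c x r4 * o c r3 y := mul_pos hx4 h3y
    have h3 : 0 < o c x y * o c r3 r4 := by linarith
    exact (pos_iff_pos_of_mul_pos h3).mpr h34
  have h2y : 0 < o c r2 y := by
    have h := plu c r2 r3 y r4
    have h1 : 0 < o c r2 r3 * o c y r4 := mul_pos h23 hy4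
    have h2 : 0 < o c r2 r4 * o c r3 y := mul_pos h24 h3y
    have h3 : 0 < o c r2 y * o c r3 r4 := by linarith
    exact (pos_iff_pos_of_mul_pos h3).mpr h34
  have hyz : 0 < o c y z := by
    have h := plu c r2 r3 y z
    have h0 : o c r2 z = - o c z r2 := anti c r2 z
    have h1 : 0 < o c r2 y * o c r3 z := mul_pos h2y h3z
    have h2 : 0 < o c z r2 * o c r3 y := mul_pos hz2 h3y
    have h3 : 0 < o c r2 r3 * o c y z := by
      rw [h0] at h
      nlinarith
    exact (pos_iff_pos_of_mul_pos h3).mp h23
  have hzx : 0 < o c z x := by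
    have h := plu c x r2 r3 z
    have h0 : o c r2 z = - o c z r2 := anti c r2 z
    have h0' : o c x z = - o c z x := anti c x z
    have h1 : 0 < o c x r2 * o c r3 z := mul_pos hx2 h3z
    have h2 : 0 < o c x r3 * o c z r2 := mul_pos hx3 hz2
    have h3 : 0 < o c z x * o c r2 r3 := by
      rw [h0, h0'] at h
      nlinarith
    exact (pos_iff_pos_of_mul_pos h3).mpr h23
  -- the convex combination
  set s : ℝ := o c y z + o c z x + o c x y with hs
  have hspos : 0 < s := by positivity
  have key := (convex_convexHull ℝ ({x, y, z} : Set Pt)).sum_mem (t := (Finset.univ : Finset (Fin 3)))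
    (w := ![o c y z / s, o c z x / s, o c x y / s]) (z := ![x, y, z])
    (by
      intro i _
      fin_cases i
      · exact (div_pos hyz hspos).le
      · exact (div_pos hzx hspos).le
      · exact (div_pos hxy hspos).le)
    (by
      simp only [Fin.sum_univ_three, Matrix.cons_val_zero, Matrix.cons_val_one, Matrix.cons_val]
      rw [← add_div, ← add_div]
      exact div_self hspos.ne')
    (by
      intro i _
      apply subset_convexHull
      fin_cases i <;> simp)
  have hc : (∑ i : Fin 3, (![o c y z / s, o c z x / s, o c x y / s] : Fin 3 → ℝ) i • (![x, y, z] : Fin 3 → Pt) i) = c := by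
    simp only [Fin.sum_univ_three, Matrix.cons_val_zero, Matrix.cons_val_one, Matrix.cons_val]
    have e1 : o c y z * x.1 + o c z x * y.1 + o c x y * z.1 = s * c.1 := by
      rw [hs]
      unfold o
      ring
    have e2 : o c y z * x.2 + o c z x * y.2 + o c x y * z.2 = s * c.2 := by
      rw [hs]
      unfold o
      ring
    apply Prod.ext
    · simp only [Prod.fst_add, Prod.smul_fst, smul_eq_mul]
      rw [div_mul_eq_mul_div, div_mul_eq_mul_div, div_mul_eq_mul_div, ← add_div, ← add_div, e1]
      exact mul_div_cancel_left₀ _ hspos.ne'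
    · simp only [Prod.snd_add, Prod.smul_snd, smul_eq_mul]
      rw [div_mul_eq_mul_div, div_mul_eq_mul_div, div_mul_eq_mul_div, ← add_div, ← add_div, e2]
      exact mul_div_cancel_left₀ _ hspos.ne'
  rw [hc] at key
  exact key

end Pool.Agent.W252.PT
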